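import Mathlib

/-!
Canonical contact structures of Brieskorn spheres and contractible Stein fillings: the arithmetic.

For pairwise coprime `2 ≤ p < q < r` the Milnor fibre of `x^p + y^q + z^r` has Milnor number
`mu p q r` and signature `sig p q r` (Brieskorn), so `fourD3 p q r` is `4 d_3` of the canonical contact
structure of the Brieskorn sphere. We find all triples with the value `-2` that a filling by a rational
homology ball forces, and among them those with vanishing correction term (`tau ≥ 0`) and with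
signature divisible by `16`.
-/

set_option autoImplicit false

namespace Pool.Agent.Results.MP_ca4cb1_gt.CanonicalStructure

open Finset

/-- the triples `(i,j,k)` with `0 < i < p`, `0 < j < q`, `0 < k < r` -/
def box (p q r : ℕ) : Finset (ℕ × ℕ × ℕ) := Ioo 0 p ×ˢ (Ioo 0 q ×ˢ Ioo 0 r)

/-- `p q r (i/p + j/q + k/r)` -/
def wt (p q r : ℕ) (x : ℕ × ℕ × ℕ) : ℕ := x.1 * (q * r) + x.2.1 * (p * r) + x.2.2 * (p * q)

/-- the Milnor number `(p-1)(q-1)(r-1)` -/
def mu (p q r : ℕ) : ℤ := ((p : ℤ) - 1) * (q - 1) * (r - 1)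

/-- the signature of the Milnor fibre: number of triples with `i/p + j/q + k/r` in `(0,1)` or `(2,3)`,
minus the number of those with `i/p + j/q + k/r` in `(1,2)` -/
def sig (p q r : ℕ) : ℤ :=
  (#{x ∈ box p q r | wt p q r x < p * q * r ∨ 2 * (p * q * r) < wt p q r x} : ℤ)
    - #{x ∈ box p q r | p * q * r < wt p q r x ∧ wt p q r x < 2 * (p * q * r)}

/-- four times the invariant `d_3` of the boundary of the Milnor fibre, `c_1 ^ 2 - 2 χ - 3 σ` with
`c_1 = 0`, `χ = 1 + μ` -/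
def fourD3 (p q r : ℕ) : ℤ := -2 * (1 + mu p q r) - 3 * sig p q r

/-- normalised Seifert invariants -/
def IsSeifert (p q r : ℕ) (e a b c : ℤ) : Prop :=
  (0 < a ∧ a < p) ∧ (0 < b ∧ b < q) ∧ (0 < c ∧ c < r) ∧
    e * (p * q * r) + a * (q * r) + b * (p * r) + c * (p * q) = -1

/-- the function `τ` of the star-shaped plumbing -/
def tau (p q r : ℕ) (e a b c : ℤ) (n : ℕ) : ℤ :=
  ∑ j ∈ range n, (1 - e * j - ⌈((j * a : ℤ) : ℚ) / (p : ℕ)⌉ - ⌈((j * b : ℤ) : ℚ) / (q : ℕ)⌉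
    - ⌈((j * c : ℤ) : ℚ) / (r : ℕ)⌉)

/-! ### the number `A` of triples with `i/p + j/q + k/r < 1` -/

/-- number of triples with `i/p + j/q + k/r < 1` -/
def pg (p q r : ℕ) : ℕ := #{x ∈ box p q r | wt p q r x < p * q * r}

theorem wt_ne (p q r : ℕ) (h1 : Nat.Coprime p q) (h2 : Nat.Coprime p r)
    (x : ℕ × ℕ × ℕ) (hx : x ∈ box p q r) (m : ℕ) : wt p q r x ≠ m * (p * q * r) := by
  intro h
  simp only [box, mem_product, mem_Ioo] at hx
  have h3 : p ∣ x.1 * (q * r) := by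
    have h4 : p ∣ wt p q r x := by rw [h]; exact ⟨m * (q * r), by ring⟩
    have h5 : p ∣ x.2.1 * (p * r) + x.2.2 * (p * q) := ⟨x.2.1 * r + x.2.2 * q, by ring⟩
    unfold wt at h4
    rw [add_assoc] at h4
    exact (Nat.dvd_add_left h5).mp h4
  have h6 : p ∣ x.1 := (Nat.Coprime.mul_right h1 h2).dvd_of_dvd_mul_right h3
  exact absurd (Nat.le_of_dvd hx.1.1 h6) (by omega)

theorem card_box (p q r : ℕ) (hp : 1 ≤ p) (hq : 1 ≤ q) (hr : 1 ≤ r) :
    ((box p q r).card : ℤ) = mu p q r := by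
  simp only [box, card_product, Nat.card_Ioo, mu]
  rw [show (p - 0 - 1) = p - 1 by omega, show (q - 0 - 1) = q - 1 by omega,
    show (r - 0 - 1) = r - 1 by omega]
  push_cast [Nat.cast_sub hp, Nat.cast_sub hq, Nat.cast_sub hr]
  ring

/-- the involution of the box -/
def flip (p q r : ℕ) (x : ℕ × ℕ × ℕ) : ℕ × ℕ × ℕ := (p - x.1, q - x.2.1, r - x.2.2)

theorem flip_mem (p q r : ℕ) (x : ℕ × ℕ × ℕ) (hx : x ∈ box p q r) : flip p q r x ∈ box p q r := by
  simp only [box, mem_product, mem_Ioo, flip] at hx ⊢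
  omega

theorem flip_flip (p q r : ℕ) (x : ℕ × ℕ × ℕ) (hx : x ∈ box p q r) :
    flip p q r (flip p q r x) = x := by
  simp only [box, mem_product, mem_Ioo] at hx
  refine Prod.ext (by simp only [flip]; omega)
    (Prod.ext (by simp only [flip]; omega) (by simp only [flip]; omega))

theorem wt_flip (p q r : ℕ) (x : ℕ × ℕ × ℕ) (hx : x ∈ box p q r) :
    wt p q r x + wt p q r (flip p q r x) = 3 * (p * q * r) := by
  simp only [box, mem_product, mem_Ioo] at hx
  simp only [wt, flip]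
  have ha' : x.1 + (p - x.1) = p := by omega
  have hb' : x.2.1 + (q - x.2.1) = q := by omega
  have hc' : x.2.2 + (r - x.2.2) = r := by omega
  have e1 : x.1 * (q * r) + (p - x.1) * (q * r) = p * q * r := by rw [← add_mul, ha']; ring
  have e2 : x.2.1 * (p * r) + (q - x.2.1) * (p * r) = p * q * r := by rw [← add_mul, hb']; ring
  have e3 : x.2.2 * (p * q) + (r - x.2.2) * (p * q) = p * q * r := by rw [← add_mul, hc']; ring
  omega

theorem pg_symm (p q r : ℕ) :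
    #{x ∈ box p q r | 2 * (p * q * r) < wt p q r x} = pg p q r := by
  unfold pg
  apply card_bij (fun x _ => flip p q r x)
  · intro x hx
    rw [mem_filter] at hx ⊢
    refine ⟨flip_mem p q r x hx.1, ?_⟩
    have := wt_flip p q r x hx.1
    omega
  · intro x hx y hy h
    rw [mem_filter] at hx hy
    rw [← flip_flip p q r x hx.1, ← flip_flip p q r y hy.1, h]
  · intro y hy
    rw [mem_filter] at hy
    refine ⟨flip p q r y, ?_, flip_flip p q r y hy.1⟩
    rw [mem_filter]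
    refine ⟨flip_mem p q r y hy.1, ?_⟩
    have := wt_flip p q r y hy.1
    omega

theorem sig_eq (p q r : ℕ) (hp : 1 ≤ p) (hq : 1 ≤ q) (hr : 1 ≤ r) (h1 : Nat.Coprime p q)
    (h2 : Nat.Coprime p r) : sig p q r = 4 * pg p q r - mu p q r := by
  have hA : #{x ∈ box p q r | wt p q r x < p * q * r ∨ 2 * (p * q * r) < wt p q r x}
      = pg p q r + pg p q r := by
    rw [filter_or, card_union_of_disjoint]
    · rw [pg_symm]; rfl
    · rw [disjoint_filter]
      intro x _ h3 h4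
      omega
  have hB : #{x ∈ box p q r | wt p q r x < p * q * r ∨ 2 * (p * q * r) < wt p q r x}
      + #{x ∈ box p q r | p * q * r < wt p q r x ∧ wt p q r x < 2 * (p * q * r)}
      = (box p q r).card := by
    rw [← card_filter_add_card_filter_not (s := box p q r)
      (fun x => wt p q r x < p * q * r ∨ 2 * (p * q * r) < wt p q r x)]
    congr 2
    apply filter_congr
    intro x hx
    have e1 := wt_ne p q r h1 h2 x hx 1
    have e2 := wt_ne p q r h1 h2 x hx 2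
    rw [one_mul] at e1
    push Not
    constructor
    · intro h; omega
    · intro h; omega
  have hC := card_box p q r hp hq hr
  unfold sig
  rw [hA] at hB
  rw [hA, ← hC, ← hB]
  push_cast
  ring

theorem fourD3_iff (p q r : ℕ) (hp : 1 ≤ p) (hq : 1 ≤ q) (hr : 1 ≤ r) (h1 : Nat.Coprime p q)
    (h2 : Nat.Coprime p r) : fourD3 p q r = -2 ↔ mu p q r = 12 * pg p q r := by
  unfold fourD3
  rw [sig_eq p q r hp hq hr h1 h2]
  constructor <;> intro h <;> linarith

/-! ### lower bound of `pg` -/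

theorem perm_sum (p q : ℕ) (h : Nat.Coprime p q) (g : ℕ → ℤ) :
    ∑ i ∈ range p, g ((q * i) % p) = ∑ i ∈ range p, g i := by
  rcases Nat.eq_zero_or_pos p with rfl | hp
  · simp
  have hinj : Set.InjOn (fun i => (q * i) % p) (range p : Finset ℕ) := by
    intro a ha b hb hab
    have ha' : a < p := mem_range.mp ha
    have hb' : b < p := mem_range.mp hb
    have h1 : q * a ≡ q * b [MOD p] := hab
    have h2 : a ≡ b [MOD p] := Nat.ModEq.cancel_left_of_coprime h h1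
    have h3 : a % p = b % p := h2
    rwa [Nat.mod_eq_of_lt ha', Nat.mod_eq_of_lt hb'] at h3
  have himg : (range p).image (fun i => (q * i) % p) = range p := by
    apply eq_of_subset_of_card_le
    · intro x hx
      rw [mem_image] at hx
      obtain ⟨i, _, rfl⟩ := hx
      exact mem_range.mpr (Nat.mod_lt _ hp)
    · rw [card_image_of_injOn hinj]
  conv_rhs => rw [← himg]
  rw [sum_image hinj]

theorem sum1 (p : ℕ) : 2 * ∑ i ∈ range p, (i : ℤ) = p * (p - 1) := by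
  induction p with
  | zero => simp
  | succ n ih => rw [sum_range_succ, mul_add, ih]; push_cast; ring

theorem sum2 (p : ℕ) : 6 * ∑ i ∈ range p, (i : ℤ) ^ 2 = (p - 1) * p * (2 * p - 1) := by
  induction p with
  | zero => simp
  | succ n ih => rw [sum_range_succ, mul_add, ih]; push_cast; ring

theorem count_low (P s r : ℕ) (hs : 0 < s) (hsP : s < P) (hr : 0 < r) :
    (s * r : ℤ) - P ≤ P * (#{k ∈ Ioo 0 r | k * P < s * r} : ℤ) := by
  have hP : 0 < P := by omega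
  have hsub : Ioc 0 ((s * r - 1) / P) ⊆ {k ∈ Ioo 0 r | k * P < s * r} := by
    intro k hk
    rw [mem_Ioc] at hk
    have h1 : k * P ≤ s * r - 1 := (Nat.le_div_iff_mul_le hP).mp hk.2
    have h2 : 0 < s * r := Nat.mul_pos hs hr
    have h3 : k * P < s * r := by omega
    rw [mem_filter, mem_Ioo]
    refine ⟨⟨hk.1, ?_⟩, h3⟩
    have h4 : s * r < P * r := Nat.mul_lt_mul_of_pos_right hsP hr
    have h5 : k * P < r * P := by rw [mul_comm r P]; omega
    exact lt_of_mul_lt_mul_right h5 (Nat.zero_le _)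
  have h1 := card_le_card hsub
  rw [Nat.card_Ioc, Nat.sub_zero] at h1
  have h2 : s * r - 1 < P * ((s * r - 1) / P) + P := by
    have := Nat.div_add_mod (s * r - 1) P
    have := Nat.mod_lt (s * r - 1) hP
    omega
  have h3 : P * ((s * r - 1) / P) ≤ P * #{k ∈ Ioo 0 r | k * P < s * r} :=
    Nat.mul_le_mul_left _ h1
  have h4 : s * r ≤ P * #{k ∈ Ioo 0 r | k * P < s * r} + P := by omega
  have h5 : ((s * r : ℕ) : ℤ) ≤ ((P * #{k ∈ Ioo 0 r | k * P < s * r} + P : ℕ) : ℤ) := by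
    exact_mod_cast h4
  push_cast at h5
  linarith

/-- the row of index `p - i` -/
def row (p q r i : ℕ) : ℕ :=
  ∑ j ∈ Ioo 0 q, #{k ∈ Ioo 0 r | (p - i) * (q * r) + j * (p * r) + k * (p * q) < p * q * r}

theorem pg_rows (p q r : ℕ) : pg p q r = ∑ i ∈ Ioo 0 p, row p q r i := by
  have h1 : pg p q r = ∑ i ∈ Ioo 0 p, ∑ j ∈ Ioo 0 q,
      #{k ∈ Ioo 0 r | i * (q * r) + j * (p * r) + k * (p * q) < p * q * r} := by
    unfold pg box wt
    simp only [card_filter, sum_product]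
  rw [h1]
  unfold row
  apply sum_nbij' (fun i => p - i) (fun i => p - i)
  · intro i hi; rw [mem_Ioo] at hi ⊢; omega
  · intro i hi; rw [mem_Ioo] at hi ⊢; omega
  · intro i hi; rw [mem_Ioo] at hi; omega
  · intro i hi; rw [mem_Ioo] at hi; omega
  · intro i hi
    rw [mem_Ioo] at hi
    rw [show p - (p - i) = i by omega]

theorem row_low (p q r i : ℕ) (hq : 2 ≤ q) (hr : 0 < r) (hi : i ∈ Ioo 0 p)
    (h1 : Nat.Coprime p q) :
    (r : ℤ) * ((q * i : ℤ) ^ 2 - (((q * i) % p : ℕ) : ℤ) ^ 2 - p * (q * i)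
        + p * (((q * i) % p : ℕ) : ℤ)) - 2 * p * q * ((q * i : ℤ) - (((q * i) % p : ℕ) : ℤ))
      ≤ 2 * p * (p * q * (row p q r i : ℤ)) := by
  rw [mem_Ioo] at hi
  have hp : 0 < p := by omega
  set m := q * i / p with hm
  set f := (q * i) % p with hf
  have hmf : p * m + f = q * i := Nat.div_add_mod _ _
  have hfp : f < p := Nat.mod_lt _ hp
  have hnd : ¬ p ∣ q * i := by
    intro h
    have h2 : p ∣ i := h1.dvd_of_dvd_mul_left h
    exact absurd (Nat.le_of_dvd hi.1 h2) (by omega)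
  have hf0 : 0 < f := Nat.pos_of_ne_zero fun h => hnd (Nat.dvd_of_mod_eq_zero h)
  have hmq : m < q := by
    have h2 : p * m < p * q := by
      have : q * i < q * p := Nat.mul_lt_mul_of_pos_left hi.2 (by omega)
      have : q * p = p * q := mul_comm _ _
      omega
    exact lt_of_mul_lt_mul_left h2 (Nat.zero_le _)
  have hsub : Ioc 0 m ⊆ Ioo 0 q := by
    intro j hj
    rw [mem_Ioc] at hj
    rw [mem_Ioo]
    omega
  have hstep : ∑ j ∈ Ioc 0 m, (((q * i : ℤ) - j * p) * r - p * q)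
      ≤ p * q * (row p q r i : ℤ) := by
    unfold row
    push_cast
    rw [mul_sum]
    refine le_trans ?_ (sum_le_sum_of_subset_of_nonneg hsub (fun j _ _ => by positivity))
    apply sum_le_sum
    intro j hj
    rw [mem_Ioc] at hj
    have hjm : j * p ≤ m * p := Nat.mul_le_mul_right _ hj.2
    have hpm : m * p = p * m := mul_comm _ _
    have hlt : j * p < q * i := by omega
    have hs : 0 < q * i - j * p := by omega
    have hsP : q * i - j * p < p * q := by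
      have : q * i < q * p := Nat.mul_lt_mul_of_pos_left hi.2 (by omega)
      have : q * p = p * q := mul_comm _ _
      omega
    have h2 := count_low (p * q) (q * i - j * p) r hs hsP hr
    have h3 : ({k ∈ Ioo 0 r | (p - i) * (q * r) + j * (p * r) + k * (p * q) < p * q * r})
        = {k ∈ Ioo 0 r | k * (p * q) < (q * i - j * p) * r} := by
      apply filter_congr
      intro k _
      have e1 : (q * i - j * p) * r + j * (p * r) = q * i * r := by
        rw [show j * (p * r) = (j * p) * r by ring, ← add_mul, Nat.sub_add_cancel hlt.le]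
      have e2 : (p - i) * (q * r) + q * i * r = p * q * r := by
        rw [show q * i * r = i * (q * r) by ring, ← add_mul, Nat.sub_add_cancel hi.2.le]
        ring
      omega
    rw [h3]
    push_cast [Nat.cast_sub hlt.le] at h2
    exact h2
  have hsum : ∀ n : ℕ, 2 * ∑ j ∈ Ioc 0 n, (((q * i : ℤ) - j * p) * r - p * q)
      = r * (2 * n * (q * i) - p * n * (n + 1)) - 2 * p * q * n := by
    intro n
    induction n with
    | zero => simp
    | succ n ih =>
      rw [← Finset.insert_Ioc_right_eq_Ioc_add_one (Nat.zero_le n), sum_insert (by simp), mul_add, ih]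
      push_cast
      ring
  have h4 := hsum m
  have hmf' : (q * i : ℤ) = p * m + f := by exact_mod_cast hmf.symm
  have h5 : (p : ℤ) * (2 * ∑ j ∈ Ioc 0 m, (((q * i : ℤ) - j * p) * r - p * q))
      ≤ p * (2 * (p * q * (row p q r i : ℤ))) := by
    apply mul_le_mul_of_nonneg_left _ (by positivity)
    linarith
  rw [h4, hmf'] at h5
  rw [hmf']
  linarith

theorem pg_low (p q r : ℕ) (hq : 2 ≤ q) (hr : 0 < r) (h1 : Nat.Coprime p q) :
    (r : ℤ) * ((q ^ 2 - 1) * ((p - 1) * p * (2 * p - 1)) - 3 * p * (q - 1) * (p * (p - 1)))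
      - 6 * p * q * (q - 1) * (p * (p - 1)) ≤ 12 * p * (p * q * (pg p q r : ℤ)) := by
  rcases Nat.eq_zero_or_pos p with rfl | hp
  · simp
  have h2 : ∑ i ∈ Ioo 0 p, ((r : ℤ) * ((q * i : ℤ) ^ 2 - (((q * i) % p : ℕ) : ℤ) ^ 2 - p * (q * i)
        + p * (((q * i) % p : ℕ) : ℤ)) - 2 * p * q * ((q * i : ℤ) - (((q * i) % p : ℕ) : ℤ)))
      ≤ 2 * p * (p * q * (pg p q r : ℤ)) := by
    rw [pg_rows]
    push_cast
    rw [mul_sum, mul_sum]
    exact sum_le_sum fun i hi => row_low p q r i hq hr hi h1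
  have h3 : ∑ i ∈ Ioo 0 p, ((r : ℤ) * ((q * i : ℤ) ^ 2 - (((q * i) % p : ℕ) : ℤ) ^ 2 - p * (q * i)
        + p * (((q * i) % p : ℕ) : ℤ)) - 2 * p * q * ((q * i : ℤ) - (((q * i) % p : ℕ) : ℤ)))
      = ∑ i ∈ range p, ((r : ℤ) * ((q * i : ℤ) ^ 2 - (((q * i) % p : ℕ) : ℤ) ^ 2 - p * (q * i)
        + p * (((q * i) % p : ℕ) : ℤ)) - 2 * p * q * ((q * i : ℤ) - (((q * i) % p : ℕ) : ℤ))) := by
    apply sum_subset
    · intro i hi; rw [mem_Ioo] at hi; rw [mem_range]; omega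
    · intro i hi hi2
      rw [mem_range] at hi
      rw [mem_Ioo] at hi2
      have : i = 0 := by omega
      subst this
      simp
  have h4 := perm_sum p q h1 (fun n => (n : ℤ))
  have h5 := perm_sum p q h1 (fun n => (n : ℤ) ^ 2)
  have h6 := sum1 p
  have h7 := sum2 p
  have h8 : ∑ i ∈ range p, ((r : ℤ) * ((q * i : ℤ) ^ 2 - (((q * i) % p : ℕ) : ℤ) ^ 2 - p * (q * i)
        + p * (((q * i) % p : ℕ) : ℤ)) - 2 * p * q * ((q * i : ℤ) - (((q * i) % p : ℕ) : ℤ)))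
      = r * ((q ^ 2 - 1) * ∑ i ∈ range p, (i : ℤ) ^ 2 - p * (q - 1) * ∑ i ∈ range p, (i : ℤ))
        - 2 * p * q * ((q - 1) * ∑ i ∈ range p, (i : ℤ)) := by
    have e1 : ∑ i ∈ range p, (q * i : ℤ) ^ 2 = q ^ 2 * ∑ i ∈ range p, (i : ℤ) ^ 2 := by
      rw [mul_sum]; exact sum_congr rfl fun i _ => by ring
    simp only [sum_sub_distrib, sum_add_distrib, ← mul_sum, h4, h5, e1]
    ring
  rw [h3, h8] at h2
  have h9 := mul_le_mul_of_nonneg_left h2 (by norm_num : (0 : ℤ) ≤ 6)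
  have e3 : 6 * ((r : ℤ) * ((q ^ 2 - 1) * ∑ i ∈ range p, (i : ℤ) ^ 2
        - p * (q - 1) * ∑ i ∈ range p, (i : ℤ)) - 2 * p * q * ((q - 1) * ∑ i ∈ range p, (i : ℤ)))
      = (r : ℤ) * ((q ^ 2 - 1) * (6 * ∑ i ∈ range p, (i : ℤ) ^ 2)
        - 3 * p * (q - 1) * (2 * ∑ i ∈ range p, (i : ℤ)))
        - 6 * p * q * (q - 1) * (2 * ∑ i ∈ range p, (i : ℤ)) := by ring
  rw [e3, h6, h7] at h9
  linarith

theorem key_ineq (p q r : ℕ) (hp : 2 ≤ p) (hq : 2 ≤ q) (hr : 0 < r) (h1 : Nat.Coprime p q)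
    (h : mu p q r = 12 * pg p q r) :
    (r : ℤ) * (p * q - p - q - 1) ≤ 5 * (p * q) := by
  have h2 := pg_low p q r hq hr h1
  unfold mu at h
  have h3 : 12 * p * (p * q * (pg p q r : ℤ)) = p * (p * q * (((p : ℤ) - 1) * (q - 1) * (r - 1))) := by
    rw [h]; ring
  rw [h3] at h2
  have hp' : (0 : ℤ) < p := by exact_mod_cast (by omega : 0 < p)
  have hp1 : (0 : ℤ) < (p : ℤ) - 1 := by
    have : (2 : ℤ) ≤ p := by exact_mod_cast hp
    linarith
  have hq1 : (0 : ℤ) < (q : ℤ) - 1 := by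
    have : (2 : ℤ) ≤ q := by exact_mod_cast hq
    linarith
  have h4 : ((p : ℤ) * (p - 1) * (q - 1)) * ((r : ℤ) * (2 * p * q - p - q - 1) - 6 * (p * q))
      ≤ ((p : ℤ) * (p - 1) * (q - 1)) * (p * q * (r - 1)) := by
    calc _ = (r : ℤ) * ((q ^ 2 - 1) * ((p - 1) * p * (2 * p - 1))
          - 3 * p * (q - 1) * (p * (p - 1))) - 6 * p * q * (q - 1) * (p * (p - 1)) := by ring
      _ ≤ _ := h2
      _ = _ := by ring
  have h5 : (0 : ℤ) < (p : ℤ) * (p - 1) * (q - 1) := by positivity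
  have h6 := le_of_mul_le_mul_left h4 h5
  linarith

/-! ### the classification of `fourD3 = -2` -/

theorem bounds (p q r : ℕ) (hp : 2 ≤ p) (hpq : p < q) (hqr : q < r) (h23 : ¬(p = 2 ∧ q = 3))
    (h : (r : ℤ) * (p * q - p - q - 1) ≤ 5 * (p * q)) :
    p ≤ 5 ∧ q ≤ 12 ∧ r ≤ 40 := by
  have hr1 : (q : ℤ) + 1 ≤ r := by exact_mod_cast hqr
  have hq1 : (p : ℤ) + 1 ≤ q := by exact_mod_cast hpq
  have hp1 : (2 : ℤ) ≤ p := by exact_mod_cast hp
  have hD : (0 : ℤ) ≤ p * q - p - q - 1 := by nlinarith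
  have h1 : ((q : ℤ) + 1) * (p * q - p - q - 1) ≤ 5 * (p * q) :=
    (mul_le_mul_of_nonneg_right hr1 hD).trans h
  have hp5 : p ≤ 5 := by
    by_contra hc
    have hp6 : (6 : ℤ) ≤ p := by exact_mod_cast (by omega : 6 ≤ p)
    have h2 : ((p : ℤ) - 1) * q * (p + 1) ≤ (p - 1) * q * q :=
      mul_le_mul_of_nonneg_left hq1 (by nlinarith)
    have h3 : ((p : ℤ) * (p - 5) - 3) * q ≤ p + 1 := by linarith
    have h4 : (3 : ℤ) ≤ p * (p - 5) - 3 := by nlinarith
    have h5 : (3 : ℤ) * q ≤ (p * (p - 5) - 3) * q := mul_le_mul_of_nonneg_right h4 (by linarith)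
    linarith
  have hq12 : q ≤ 12 := by
    by_contra hc
    have hq13 : (13 : ℤ) ≤ q := by exact_mod_cast (by omega : 13 ≤ q)
    interval_cases p <;> push_cast at h1 <;> nlinarith
  refine ⟨hp5, hq12, ?_⟩
  interval_cases p <;> interval_cases q <;> omega

theorem finite_check : ∀ p ∈ Icc 2 5, ∀ q ∈ Icc 3 12, ∀ r ∈ Icc 4 40, (p < q ∧ q < r ∧
    Nat.Coprime p q ∧ Nat.Coprime p r ∧ Nat.Coprime q r ∧ ¬(p = 2 ∧ q = 3) ∧
    r * (p * q) ≤ 5 * (p * q) + r * (p + q + 1) ∧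
    (p - 1) * (q - 1) * (r - 1) = 12 * pg p q r) →
    (p, q, r) ∈ ([(2,5,7), (2,5,13), (2,5,19), (2,7,9), (2,7,11), (2,7,13), (3,4,5), (3,4,7),
      (3,4,11), (3,5,7)] : List (ℕ × ℕ × ℕ)) := by
  decide +kernel

theorem finite_check2 : ∀ x ∈ ([(2,5,7), (2,5,13), (2,5,19), (2,7,9), (2,7,11), (2,7,13), (3,4,5),
    (3,4,7), (3,4,11), (3,5,7)] : List (ℕ × ℕ × ℕ)),
    (x.1 - 1) * (x.2.1 - 1) * (x.2.2 - 1) = 12 * pg x.1 x.2.1 x.2.2 := by
  decide +kernel

theorem pg_23 (r : ℕ) : pg 2 3 r = (r - 1) / 6 := by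
  have h1 : pg 2 3 r = #{k ∈ Ioo 0 r | k * 6 < r} := by
    unfold pg
    apply card_nbij' (fun x => x.2.2) (fun k => (1, 1, k))
    · intro x hx
      simp only [coe_filter, Set.mem_ofPred_eq, box, mem_product, mem_Ioo, wt] at hx
      simp only [coe_filter, Set.mem_ofPred_eq, mem_Ioo]
      obtain ⟨⟨h2, h3, h4⟩, h5⟩ := hx
      have h6 : x.1 = 1 := by omega
      rw [h6] at h5
      have h7 : x.2.1 = 1 ∨ x.2.1 = 2 := by omega
      rcases h7 with h7 | h7 <;> rw [h7] at h5 <;> omega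
    · intro k hk
      simp only [coe_filter, Set.mem_ofPred_eq, mem_Ioo] at hk
      simp only [coe_filter, Set.mem_ofPred_eq, box, mem_product, mem_Ioo, wt]
      omega
    · intro x hx
      simp only [coe_filter, Set.mem_ofPred_eq, box, mem_product, mem_Ioo, wt] at hx
      obtain ⟨⟨h2, h3, h4⟩, h5⟩ := hx
      have h6 : x.1 = 1 := by omega
      rw [h6] at h5
      have h7 : x.2.1 = 1 ∨ x.2.1 = 2 := by omega
      have h8 : x.2.1 = 1 := by rcases h7 with h7 | h7 <;> rw [h7] at h5 <;> omega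
      exact Prod.ext h6.symm (Prod.ext h8.symm rfl)
    · intro k _
      rfl
  rw [h1]
  have h2 : ({k ∈ Ioo 0 r | k * 6 < r}) = Ioc 0 ((r - 1) / 6) := by
    ext k
    rw [mem_filter, mem_Ioo, mem_Ioc]
    omega
  rw [h2, Nat.card_Ioc, Nat.sub_zero]

/-- the sporadic triples -/
def sporadic : List (ℕ × ℕ × ℕ) :=
  [(2,5,7), (2,5,13), (2,5,19), (2,7,9), (2,7,11), (2,7,13), (3,4,5), (3,4,7), (3,4,11), (3,5,7)]

theorem fourD3_class (p q r : ℕ) (hp : 2 ≤ p) (hpq : p < q) (hqr : q < r)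
    (h1 : Nat.Coprime p q) (h2 : Nat.Coprime p r) (h3 : Nat.Coprime q r) :
    fourD3 p q r = -2 ↔ (p = 2 ∧ q = 3 ∧ r % 6 = 1) ∨ (p, q, r) ∈ sporadic := by
  rw [fourD3_iff p q r (by omega) (by omega) (by omega) h1 h2]
  constructor
  · intro h
    by_cases h23 : p = 2 ∧ q = 3
    · left
      obtain ⟨rfl, rfl⟩ := h23
      refine ⟨rfl, rfl, ?_⟩
      rw [pg_23] at h
      unfold mu at h
      push_cast at h
      omega
    · right
      have h4 := key_ineq p q r hp (by omega) (by omega) h1 h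
      obtain ⟨h5, h6, h7⟩ := bounds p q r hp hpq hqr h23 h4
      refine finite_check p (mem_Icc.mpr ⟨hp, h5⟩) q (mem_Icc.mpr ⟨by omega, h6⟩) r
        (mem_Icc.mpr ⟨by omega, h7⟩) ⟨hpq, hqr, h1, h2, h3, h23, ?_, ?_⟩
      · have h8 : ((r * (p * q) : ℕ) : ℤ) ≤ ((5 * (p * q) + r * (p + q + 1) : ℕ) : ℤ) := by
          push_cast
          linarith
        exact_mod_cast h8
      · have h8 : (((p - 1) * (q - 1) * (r - 1) : ℕ) : ℤ) = ((12 * pg p q r : ℕ) : ℤ) := by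
          unfold mu at h
          push_cast [Nat.cast_sub (by omega : 1 ≤ p), Nat.cast_sub (by omega : 1 ≤ q),
            Nat.cast_sub (by omega : 1 ≤ r)]
          exact h
        exact_mod_cast h8
  · rintro (⟨rfl, rfl, h4⟩ | h4)
    · rw [pg_23]
      unfold mu
      push_cast
      omega
    · have h5 := finite_check2 _ h4
      simp only at h5
      have h8 : (((p - 1) * (q - 1) * (r - 1) : ℕ) : ℤ) = ((12 * pg p q r : ℕ) : ℤ) := by
        exact_mod_cast h5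
      push_cast [Nat.cast_sub (by omega : 1 ≤ p), Nat.cast_sub (by omega : 1 ≤ q),
        Nat.cast_sub (by omega : 1 ≤ r)] at h8
      unfold mu
      exact h8

/-! ### Seifert invariants -/

theorem exists_inv (n p : ℕ) (hp : 2 ≤ p) (h : Nat.Coprime n p) :
    ∃ a : ℤ, 0 < a ∧ a < p ∧ (p : ℤ) ∣ a * n + 1 := by
  obtain ⟨u, v, huv⟩ := Nat.isCoprime_iff_coprime.mpr h
  have hp0 : (0 : ℤ) < p := by exact_mod_cast (by omega : 0 < p)
  have hdvd : (p : ℤ) ∣ ((-u) % p) * n + 1 := by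
    have h1 : (p : ℤ) ∣ (-u) - (-u) % p := Int.dvd_self_sub_emod
    obtain ⟨t, ht⟩ := h1
    refine ⟨v - t * n, ?_⟩
    have h2 : (-u) % (p : ℤ) = -u - p * t := by linarith
    rw [h2]
    linear_combination -huv
  refine ⟨(-u) % p, ?_, Int.emod_lt_of_pos _ hp0, hdvd⟩
  have h3 := Int.emod_nonneg (-u) hp0.ne'
  rcases h3.lt_or_eq with h4 | h4
  · exact h4
  · exfalso
    rw [← h4, zero_mul, zero_add] at hdvd
    have h5 := Int.le_of_dvd one_pos hdvd
    have h6 : (2 : ℤ) ≤ p := by exact_mod_cast hp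
    linarith

theorem exists_seifert (p q r : ℕ) (hp : 2 ≤ p) (hq : 2 ≤ q) (hr : 2 ≤ r)
    (h1 : Nat.Coprime p q) (h2 : Nat.Coprime p r) (h3 : Nat.Coprime q r) :
    ∃ e a b c : ℤ, IsSeifert p q r e a b c := by
  obtain ⟨a, ha, ha', hda⟩ := exists_inv (q * r) p hp (Nat.Coprime.mul_right h1 h2).symm
  obtain ⟨b, hb, hb', hdb⟩ := exists_inv (p * r) q hq (Nat.Coprime.mul_right h1.symm h3).symm
  obtain ⟨c, hc, hc', hdc⟩ := exists_inv (p * q) r hr (Nat.Coprime.mul_right h2.symm h3.symm).symm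
  push_cast at hda hdb hdc
  have i1 : IsCoprime (p : ℤ) q := Nat.isCoprime_iff_coprime.mpr h1
  have i2 : IsCoprime (p : ℤ) r := Nat.isCoprime_iff_coprime.mpr h2
  have i3 : IsCoprime (q : ℤ) r := Nat.isCoprime_iff_coprime.mpr h3
  have hN1 : (p : ℤ) ∣ a * (q * r) + b * (p * r) + c * (p * q) + 1 := by
    have : a * (q * r) + b * (p * r) + c * (p * q) + 1
        = (a * ((q : ℤ) * r) + 1) + p * (b * r + c * q) := by ring
    rw [this]
    exact dvd_add hda ⟨_, rfl⟩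
  have hN2 : (q : ℤ) ∣ a * (q * r) + b * (p * r) + c * (p * q) + 1 := by
    have : a * (q * r) + b * (p * r) + c * (p * q) + 1
        = (b * ((p : ℤ) * r) + 1) + q * (a * r + c * p) := by ring
    rw [this]
    exact dvd_add hdb ⟨_, rfl⟩
  have hN3 : (r : ℤ) ∣ a * (q * r) + b * (p * r) + c * (p * q) + 1 := by
    have : a * (q * r) + b * (p * r) + c * (p * q) + 1
        = (c * ((p : ℤ) * q) + 1) + r * (a * q + b * p) := by ring
    rw [this]
    exact dvd_add hdc ⟨_, rfl⟩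
  obtain ⟨k, hk⟩ := (i2.mul_left i3).mul_dvd (i1.mul_dvd hN1 hN2) hN3
  exact ⟨-k, a, b, c, ⟨ha, ha'⟩, ⟨hb, hb'⟩, ⟨hc, hc'⟩, by linear_combination hk⟩

/-- integer form of `tau` -/
def tauI (p q r e a b c : ℤ) (n : ℕ) : ℤ :=
  ∑ j ∈ range n, (1 - e * j + (-(j * a)) / p + (-(j * b)) / q + (-(j * c)) / r)

theorem tau_eq (p q r : ℕ) (e a b c : ℤ) (n : ℕ) :
    tau p q r e a b c n = tauI p q r e a b c n := by
  unfold tau tauI
  apply sum_congr rfl
  intro j _
  rw [Rat.ceil_intCast_div_natCast, Rat.ceil_intCast_div_natCast, Rat.ceil_intCast_div_natCast]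
  ring

/-- the family `(2,3,6m+1)` -/
theorem tau_family (m : ℕ) (hm : 0 < m) (n : ℕ) :
    0 ≤ tauI 2 3 ((6 * m + 1 : ℕ) : ℤ) (-1) 1 1 m n := by
  have h1 : ∀ n : ℕ, ∑ j ∈ range n, (1 + (j : ℤ) + (-(j : ℤ)) / 2 + (-(j : ℤ)) / 3 + (-(j : ℤ)) / 6)
      = if n % 6 = 1 then 1 else 0 := by
    intro n
    induction n with
    | zero => simp
    | succ n ih =>
      rw [sum_range_succ, ih]
      split_ifs <;> omega
  have h2 : ∑ j ∈ range n, (1 + (j : ℤ) + (-(j : ℤ)) / 2 + (-(j : ℤ)) / 3 + (-(j : ℤ)) / 6)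
      ≤ tauI 2 3 ((6 * m + 1 : ℕ) : ℤ) (-1) 1 1 m n := by
    unfold tauI
    apply sum_le_sum
    intro j _
    have h3 : (-(j : ℤ)) / 6 ≤ (-((j : ℤ) * m)) / ((6 * m + 1 : ℕ) : ℤ) := by
      have hpos : (0 : ℤ) < ((6 * m + 1 : ℕ) : ℤ) := by positivity
      rw [Int.le_ediv_iff_mul_le hpos]
      have h4 : 6 * ((-(j : ℤ)) / 6) ≤ -(j : ℤ) := by omega
      have h5 : (-(j : ℤ)) / 6 ≤ 0 := by omega
      push_cast
      have h6 : (m : ℤ) * (6 * ((-(j : ℤ)) / 6)) ≤ m * (-(j : ℤ)) :=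
        mul_le_mul_of_nonneg_left h4 (by positivity)
      linarith
    rw [mul_one, neg_one_mul, sub_neg_eq_add]
    linarith
  rw [h1] at h2
  refine le_trans ?_ h2
  split_ifs <;> norm_num

theorem tau_257 (n : ℕ) : 0 ≤ tauI 2 5 7 (-1) 1 1 2 n := by
  rcases le_or_gt n 12 with h | h
  · have h1 : ∀ n ∈ range 13, 0 ≤ tauI 2 5 7 (-1) 1 1 2 n := by decide +kernel
    exact h1 n (mem_range.mpr (by omega))
  · have h1 : ∀ k : ℕ, 0 ≤ tauI 2 5 7 (-1) 1 1 2 (12 + k) := by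
      intro k
      induction k with
      | zero => decide +kernel
      | succ k ih =>
        unfold tauI at ih ⊢
        rw [← add_assoc, sum_range_succ]
        apply add_nonneg ih
        push_cast
        omega
    have h2 := h1 (n - 12)
    rwa [show 12 + (n - 12) = n by omega] at h2

theorem tau_345 (n : ℕ) : 0 ≤ tauI 3 4 5 (-1) 1 1 2 n := by
  rcases le_or_gt n 14 with h | h
  · have h1 : ∀ n ∈ range 15, 0 ≤ tauI 3 4 5 (-1) 1 1 2 n := by decide +kernel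
    exact h1 n (mem_range.mpr (by omega))
  · have h1 : ∀ k : ℕ, 0 ≤ tauI 3 4 5 (-1) 1 1 2 (14 + k) := by
      intro k
      induction k with
      | zero => decide +kernel
      | succ k ih =>
        unfold tauI at ih ⊢
        rw [← add_assoc, sum_range_succ]
        apply add_nonneg ih
        push_cast
        omega
    have h2 := h1 (n - 14)
    rwa [show 14 + (n - 14) = n by omega] at h2

theorem seifert_23 (m : ℕ) (e a b c : ℤ) (h : IsSeifert 2 3 (6 * m + 1) e a b c) :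
    e = -1 ∧ a = 1 ∧ b = 1 ∧ c = m := by
  obtain ⟨⟨ha, ha'⟩, ⟨hb, hb'⟩, ⟨hc, hc'⟩, h1⟩ := h
  push_cast at ha' hb' hc' h1
  have ha1 : a = 1 := by omega
  subst ha1
  have hr : (0 : ℤ) < 6 * m + 1 := by positivity
  have hK : (6 * e + 3 + 2 * b) * (6 * (m : ℤ) + 1) = -1 - 6 * c := by linarith
  have hK1 : 6 * e + 3 + 2 * b < 0 := by
    by_contra hcon
    have := mul_nonneg (not_lt.mp hcon) hr.le
    linarith
  have hK2 : -6 < 6 * e + 3 + 2 * b := by
    by_contra hcon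
    have h2 : 6 * e + 3 + 2 * b ≤ -6 := not_lt.mp hcon
    have := mul_le_mul_of_nonneg_right h2 hr.le
    linarith
  have h3 : (b = 1 ∧ e = -1) ∨ (b = 2 ∧ e = -2) := by omega
  rcases h3 with ⟨rfl, rfl⟩ | ⟨rfl, rfl⟩
  · refine ⟨rfl, rfl, rfl, ?_⟩
    omega
  · exfalso
    omega

theorem sig_of (p q r : ℕ) (hp : 1 ≤ p) (hq : 1 ≤ q) (hr : 1 ≤ r) (h1 : Nat.Coprime p q)
    (h2 : Nat.Coprime p r) (h : fourD3 p q r = -2) : sig p q r = -8 * pg p q r := by
  have h3 := (fourD3_iff p q r hp hq hr h1 h2).mp h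
  rw [sig_eq p q r hp hq hr h1 h2, h3]
  ring

theorem pg_vals : pg 2 5 7 = 2 ∧ pg 3 4 5 = 2 := by
  decide +kernel

theorem tau_neg : tauI 2 5 13 (-2) 1 4 9 10 < 0 ∧ tauI 2 5 19 (-2) 1 3 17 10 < 0 ∧
    tauI 2 7 9 (-2) 1 5 7 14 < 0 ∧ tauI 2 7 11 (-2) 1 6 7 14 < 0 ∧
    tauI 2 7 13 (-2) 1 4 12 12 < 0 ∧ tauI 3 4 7 (-2) 2 3 4 12 < 0 ∧
    tauI 3 4 11 (-2) 1 3 10 11 < 0 ∧ tauI 3 5 7 (-2) 1 4 6 14 < 0 := by
  decide +kernel

theorem main (p q r : ℕ) (hp : 2 ≤ p) (hpq : p < q) (hqr : q < r)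
    (h1 : Nat.Coprime p q) (h2 : Nat.Coprime p r) (h3 : Nat.Coprime q r) (e a b c : ℤ)
    (hS : IsSeifert p q r e a b c) :
    (fourD3 p q r = -2 ∧ ∀ n, 0 ≤ tau p q r e a b c n) ↔
      (p = 2 ∧ q = 3 ∧ r % 6 = 1) ∨ (p, q, r) = (2, 5, 7) ∨ (p, q, r) = (3, 4, 5) := by
  constructor
  · rintro ⟨hd, hτ⟩
    rcases (fourD3_class p q r hp hpq hqr h1 h2 h3).mp hd with hfam | hsp
    · exact Or.inl hfam
    · right
      obtain ⟨t1, t2, t3, t4, t5, t6, t7, t8⟩ := tau_neg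
      obtain ⟨⟨ha, ha'⟩, ⟨hb, hb'⟩, ⟨hc, hc'⟩, hE⟩ := hS
      simp only [sporadic, List.mem_cons, List.not_mem_nil, or_false, Prod.mk.injEq] at hsp
      rcases hsp with ⟨rfl, rfl, rfl⟩ | ⟨rfl, rfl, rfl⟩ | ⟨rfl, rfl, rfl⟩ | ⟨rfl, rfl, rfl⟩ |
        ⟨rfl, rfl, rfl⟩ | ⟨rfl, rfl, rfl⟩ | ⟨rfl, rfl, rfl⟩ | ⟨rfl, rfl, rfl⟩ | ⟨rfl, rfl, rfl⟩ |
        ⟨rfl, rfl, rfl⟩
      · left; rfl
      · exfalso
        push_cast at ha' hb' hc' hE
        obtain ⟨rfl, rfl, rfl, rfl⟩ : a = 1 ∧ b = 4 ∧ c = 9 ∧ e = -2 := by omega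
        have := hτ 10
        rw [tau_eq] at this
        exact absurd t1 (not_lt.mpr this)
      · exfalso
        push_cast at ha' hb' hc' hE
        obtain ⟨rfl, rfl, rfl, rfl⟩ : a = 1 ∧ b = 3 ∧ c = 17 ∧ e = -2 := by omega
        have := hτ 10
        rw [tau_eq] at this
        exact absurd t2 (not_lt.mpr this)
      · exfalso
        push_cast at ha' hb' hc' hE
        obtain ⟨rfl, rfl, rfl, rfl⟩ : a = 1 ∧ b = 5 ∧ c = 7 ∧ e = -2 := by omega
        have := hτ 14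
        rw [tau_eq] at this
        exact absurd t3 (not_lt.mpr this)
      · exfalso
        push_cast at ha' hb' hc' hE
        obtain ⟨rfl, rfl, rfl, rfl⟩ : a = 1 ∧ b = 6 ∧ c = 7 ∧ e = -2 := by omega
        have := hτ 14
        rw [tau_eq] at this
        exact absurd t4 (not_lt.mpr this)
      · exfalso
        push_cast at ha' hb' hc' hE
        obtain ⟨rfl, rfl, rfl, rfl⟩ : a = 1 ∧ b = 4 ∧ c = 12 ∧ e = -2 := by omega
        have := hτ 12
        rw [tau_eq] at this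
        exact absurd t5 (not_lt.mpr this)
      · right; rfl
      · exfalso
        push_cast at ha' hb' hc' hE
        obtain ⟨rfl, rfl, rfl, rfl⟩ : a = 2 ∧ b = 3 ∧ c = 4 ∧ e = -2 := by omega
        have := hτ 12
        rw [tau_eq] at this
        exact absurd t6 (not_lt.mpr this)
      · exfalso
        push_cast at ha' hb' hc' hE
        obtain ⟨rfl, rfl, rfl, rfl⟩ : a = 1 ∧ b = 3 ∧ c = 10 ∧ e = -2 := by omega
        have := hτ 11
        rw [tau_eq] at this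
        exact absurd t7 (not_lt.mpr this)
      · exfalso
        push_cast at ha' hb' hc' hE
        obtain ⟨rfl, rfl, rfl, rfl⟩ : a = 1 ∧ b = 4 ∧ c = 6 ∧ e = -2 := by omega
        have := hτ 14
        rw [tau_eq] at this
        exact absurd t8 (not_lt.mpr this)
  · intro hcase
    refine ⟨?_, ?_⟩
    · rw [fourD3_class p q r hp hpq hqr h1 h2 h3]
      rcases hcase with h | h | h
      · left; exact h
      · right; rw [h]; simp [sporadic]
      · right; rw [h]; simp [sporadic]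
    · intro n
      rw [tau_eq]
      rcases hcase with ⟨rfl, rfl, h⟩ | h | h
      · obtain ⟨m, rfl⟩ : ∃ m, r = 6 * m + 1 := ⟨r / 6, by omega⟩
        obtain ⟨rfl, rfl, rfl, rfl⟩ := seifert_23 m e a b c hS
        exact tau_family m (by omega) n
      · simp only [Prod.mk.injEq] at h
        obtain ⟨rfl, rfl, rfl⟩ := h
        obtain ⟨⟨ha, ha'⟩, ⟨hb, hb'⟩, ⟨hc, hc'⟩, hE⟩ := hS
        push_cast at ha' hb' hc' hE
        obtain ⟨rfl, rfl, rfl, rfl⟩ : a = 1 ∧ b = 1 ∧ c = 2 ∧ e = -1 := by omega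
        exact tau_257 n
      · simp only [Prod.mk.injEq] at h
        obtain ⟨rfl, rfl, rfl⟩ := h
        obtain ⟨⟨ha, ha'⟩, ⟨hb, hb'⟩, ⟨hc, hc'⟩, hE⟩ := hS
        push_cast at ha' hb' hc' hE
        obtain ⟨rfl, rfl, rfl, rfl⟩ : a = 1 ∧ b = 1 ∧ c = 2 ∧ e = -1 := by omega
        exact tau_345 n

theorem main2 (p q r : ℕ) (hp : 2 ≤ p) (hpq : p < q) (hqr : q < r)
    (h1 : Nat.Coprime p q) (h2 : Nat.Coprime p r) (h3 : Nat.Coprime q r) (e a b c : ℤ)
    (hS : IsSeifert p q r e a b c) :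
    (fourD3 p q r = -2 ∧ (∀ n, 0 ≤ tau p q r e a b c n) ∧ 16 ∣ sig p q r) ↔
      (p = 2 ∧ q = 3 ∧ r % 12 = 1) ∨ (p, q, r) = (2, 5, 7) ∨ (p, q, r) = (3, 4, 5) := by
  have hm := main p q r hp hpq hqr h1 h2 h3 e a b c hS
  obtain ⟨v1, v2⟩ := pg_vals
  constructor
  · rintro ⟨hd, hτ, h16⟩
    rw [sig_of p q r (by omega) (by omega) (by omega) h1 h2 hd] at h16
    rcases hm.mp ⟨hd, hτ⟩ with ⟨rfl, rfl, h⟩ | h | h
    · left
      rw [pg_23] at h16
      refine ⟨rfl, rfl, ?_⟩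
      push_cast at h16
      omega
    · exact Or.inr (Or.inl h)
    · exact Or.inr (Or.inr h)
  · intro hcase
    have h4 : fourD3 p q r = -2 ∧ ∀ n, 0 ≤ tau p q r e a b c n := by
      apply hm.mpr
      rcases hcase with ⟨rfl, rfl, h⟩ | h | h
      · exact Or.inl ⟨rfl, rfl, by omega⟩
      · exact Or.inr (Or.inl h)
      · exact Or.inr (Or.inr h)
    refine ⟨h4.1, h4.2, ?_⟩
    rw [sig_of p q r (by omega) (by omega) (by omega) h1 h2 h4.1]
    rcases hcase with ⟨rfl, rfl, h⟩ | h | h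
    · rw [pg_23]
      push_cast
      omega
    · simp only [Prod.mk.injEq] at h
      obtain ⟨rfl, rfl, rfl⟩ := h
      rw [v1]
      decide
    · simp only [Prod.mk.injEq] at h
      obtain ⟨rfl, rfl, rfl⟩ := h
      rw [v2]
      decide

/-- Let `2 ≤ p < q < r` be pairwise coprime.
(1) `fourD3 p q r = -2` exactly for `(2,3,r)` with `r ≡ 1 mod 6` and ten further triples.
(2) Normalised Seifert invariants exist.
(3) For any of them, `fourD3 p q r = -2` and `tau ≥ 0` hold together exactly for `(2,3,r)` with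
`r ≡ 1 mod 6`, `(2,5,7)` and `(3,4,5)`; with `16 ∣ sig p q r` in addition exactly for `(2,3,r)` with
`r ≡ 1 mod 12`, `(2,5,7)` and `(3,4,5)`. -/
theorem result : ∀ p q r : ℕ, 2 ≤ p → p < q → q < r →
    Nat.Coprime p q → Nat.Coprime p r → Nat.Coprime q r →
    (fourD3 p q r = -2 ↔ (p = 2 ∧ q = 3 ∧ r % 6 = 1) ∨ (p, q, r) ∈
      ([(2,5,7), (2,5,13), (2,5,19), (2,7,9), (2,7,11), (2,7,13), (3,4,5), (3,4,7), (3,4,11),
        (3,5,7)] : List (ℕ × ℕ × ℕ))) ∧
    (∃ e a b c : ℤ, IsSeifert p q r e a b c) ∧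
    ∀ e a b c : ℤ, IsSeifert p q r e a b c →
      ((fourD3 p q r = -2 ∧ ∀ n, 0 ≤ tau p q r e a b c n) ↔
        (p = 2 ∧ q = 3 ∧ r % 6 = 1) ∨ (p, q, r) = (2, 5, 7) ∨ (p, q, r) = (3, 4, 5)) ∧
      ((fourD3 p q r = -2 ∧ (∀ n, 0 ≤ tau p q r e a b c n) ∧ 16 ∣ sig p q r) ↔
        (p = 2 ∧ q = 3 ∧ r % 12 = 1) ∨ (p, q, r) = (2, 5, 7) ∨ (p, q, r) = (3, 4, 5)) := by
  intro p q r hp hpq hqr h1 h2 h3
  refine ⟨fourD3_class p q r hp hpq hqr h1 h2 h3,
    exists_seifert p q r hp (by omega) (by omega) h1 h2 h3, fun e a b c hS => ⟨?_, ?_⟩⟩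
  · exact main p q r hp hpq hqr h1 h2 h3 e a b c hS
  · exact main2 p q r hp hpq hqr h1 h2 h3 e a b c hS

end Pool.Agent.Results.MP_ca4cb1_gt.CanonicalStructure
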